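import Pool.Agent.R54.IN.Main

/-!
# Inertias of full-rank completions and bicolorings of the complement

The statement of Q1 fails for special partial matrices (an explicit example of size 6), and it
holds for every partial matrix in the interior of the set of partial matrices that are minimally
completable to full rank.
-/

set_option autoImplicit false

open scoped Matrix

namespace Pool.Agent.Results.MP_97e4cf_co.InertiaBicoloring

/-- A semisimple graph on `[N]`: a set of unordered pairs of vertices, where the pair `s(i, i)`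
is the loop at `i`. -/
abbrev SGraph (N : ℕ) := Set (Sym2 (Fin N))

/-- A `G`-partial matrix: a real number for every edge and every loop of `G`; the space of all
of them carries the product (Euclidean) topology. -/
abbrev PMat {N : ℕ} (G : SGraph N) := ↥G → ℝ

/-- `A` is a completion of `M`: it is symmetric and agrees with `M` on the edges and loops. -/
def IsCompletion {N : ℕ} {G : SGraph N} (M : PMat G) (A : Matrix (Fin N) (Fin N) ℝ) : Prop :=
  A.IsSymm ∧ ∀ i j (h : s(i, j) ∈ G), A i j = M ⟨s(i, j), h⟩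

/-- `M` is minimally completable to rank `r`. -/
def MinCompletable {N : ℕ} {G : SGraph N} (M : PMat G) (r : ℕ) : Prop :=
  (∃ A, IsCompletion M A ∧ A.rank = r) ∧ ∀ A, IsCompletion M A → r ≤ A.rank

/-- `r` is a typical rank of `G`. -/
def TypicalRank {N : ℕ} (G : SGraph N) (r : ℕ) : Prop :=
  ∃ U : Set (PMat G), IsOpen U ∧ U.Nonempty ∧ ∀ M ∈ U, MinCompletable M r

/-- `A` has `p` positive and `q` negative eigenvalues, counted with multiplicity. -/
def HasInertia {N : ℕ} (A : Matrix (Fin N) (Fin N) ℝ) (p q : ℕ) : Prop :=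
  (A.charpoly.roots.filter (fun t => 0 < t)).card = p ∧
    (A.charpoly.roots.filter (fun t => t < 0)).card = q

/-- The complement of `G` (all pairs and loops that are not in `G`) has a proper bicoloring with
exactly `m` red (`true`) and `n` blue (`false`) vertices. -/
def ComplementBicolorable {N : ℕ} (G : SGraph N) (m n : ℕ) : Prop :=
  ∃ c : Fin N → Bool, (∀ i j, s(i, j) ∉ G → c i ≠ c j) ∧
    (Finset.univ.filter (fun v => c v = true)).card = m ∧
    (Finset.univ.filter (fun v => c v = false)).card = n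

/-! ### General lemmas -/

theorem isHermitian_of {N : ℕ} {A : Matrix (Fin N) (Fin N) ℝ} (hA : A.IsSymm) :
    A.IsHermitian := by
  ext i j
  simp only [Matrix.conjTranspose_apply, star_trivial]
  exact hA.apply i j

theorem rank_eq_of_ker {N : ℕ} {A : Matrix (Fin N) (Fin N) ℝ}
    (h : ∀ y, A *ᵥ y = 0 → y = 0) : A.rank = N := by
  have hdet : A.det ≠ 0 := by
    intro h0
    obtain ⟨v, hv, hv0⟩ := Matrix.exists_mulVec_eq_zero_iff.2 h0
    exact hv (h v hv0)
  rw [Matrix.rank_of_det_ne_zero hdet, Fintype.card_fin]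

theorem det_ne_zero_of_rank {N : ℕ} {A : Matrix (Fin N) (Fin N) ℝ} (h : N ≤ A.rank) :
    A.det ≠ 0 := by
  intro h0
  obtain ⟨v, hv, hv0⟩ := Matrix.exists_mulVec_eq_zero_iff.2 h0
  have h1 := LinearMap.finrank_range_add_finrank_ker A.mulVecLin
  rw [Module.finrank_fintype_fun_eq_card, Fintype.card_fin] at h1
  have h2 : Module.finrank ℝ (LinearMap.range A.mulVecLin) = A.rank := rfl
  have h3 : 0 < Module.finrank ℝ (LinearMap.ker A.mulVecLin) := by
    rw [Module.finrank_pos_iff, Submodule.nontrivial_iff_ne_bot, Submodule.ne_bot_iff]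
    exact ⟨v, hv0, hv⟩
  omega

/-- the partial matrix of a symmetric matrix -/
def restr {N : ℕ} (G : SGraph N) (B : Matrix (Fin N) (Fin N) ℝ) (hB : B.IsSymm) : PMat G :=
  fun e => Sym2.lift ⟨fun i j => B i j, fun i j => hB.apply j i⟩ e.1

theorem restr_completion {N : ℕ} (G : SGraph N) (B : Matrix (Fin N) (Fin N) ℝ) (hB : B.IsSymm) :
    IsCompletion (restr G B hB) B :=
  ⟨hB, fun _ _ _ => rfl⟩

/-! ### The positive part -/

theorem generic {N : ℕ} (G : SGraph N) (U : Set (PMat G)) (hU : IsOpen U)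
    (hUr : ∀ M ∈ U, MinCompletable M N) (M : PMat G) (hM : M ∈ U)
    (A : Matrix (Fin N) (Fin N) ℝ) (hA : IsCompletion M A) (m n : ℕ) (hI : HasInertia A m n) :
    ComplementBicolorable G m n := by
  classical
  let _ : Fintype ↥G := Fintype.ofFinite ↥G
  obtain ⟨ε, hε, hball⟩ := Metric.isOpen_iff.1 hU M hM
  have hKs : ∀ i j : Fin N, s(i, j) ∈ G → s(j, i) ∈ G := by
    intro i j h
    rwa [Sym2.eq_swap]
  have hNear : R54.IN.Near (fun i j => s(i, j) ∈ G) A ε A :=
    ⟨hA.1, fun i j _ => by simpa using hε⟩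
  have hgood : R54.IN.Good (fun i j => s(i, j) ∈ G) A ε Finset.univ := by
    intro B hB
    rw [R54.IN.D_univ]
    have hmem : restr G B hB.1 ∈ U := by
      apply hball
      rw [Metric.mem_ball, dist_pi_lt_iff hε]
      rintro ⟨e, he⟩
      induction e using Sym2.ind with
      | _ i j =>
        have h1 : restr G B hB.1 ⟨s(i, j), he⟩ = B i j := rfl
        rw [h1, ← hA.2 i j he, Real.dist_eq]
        exact hB.2 i j he
    exact det_ne_zero_of_rank ((hUr _ hmem).2 B (restr_completion G B hB.1))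
  obtain ⟨s, hs, h1, h2⟩ := R54.IN.main hKs hgood hNear
  refine ⟨s, hs, ?_, ?_⟩
  · rw [h1]; exact hI.1
  · rw [h2]; exact hI.2

/-! ### The counterexample -/

/-- The graph on six vertices whose complement is the star with centre `0` and leaves
`1, 2, 3, 4`, together with the isolated vertex `5`. -/
def G6 : SGraph 6 := {e | e ≠ s(0, 1) ∧ e ≠ s(0, 2) ∧ e ≠ s(0, 3) ∧ e ≠ s(0, 4)}

instance (e : Sym2 (Fin 6)) : Decidable (e ∈ G6) :=
  inferInstanceAs (Decidable (e ≠ s(0, 1) ∧ e ≠ s(0, 2) ∧ e ≠ s(0, 3) ∧ e ≠ s(0, 4)))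

/-- a completion of the partial matrix of the counterexample: the entries `(0, 5)` and `(5, 0)`
are `1`, the diagonal is `0, 1, 1, -1, -1, 0`, all other entries are `0` -/
def K6 : Matrix (Fin 6) (Fin 6) ℝ := fun i j =>
  if i = j then (if i = 1 ∨ i = 2 then 1 else if i = 3 ∨ i = 4 then -1 else 0)
  else if (i = 0 ∧ j = 5) ∨ (i = 5 ∧ j = 0) then 1 else 0

theorem K6_symm : K6.IsSymm := by
  ext i j
  simp only [Matrix.transpose_apply, K6]
  by_cases h : i = j
  · subst h; rfl
  · rw [if_neg h, if_neg (Ne.symm h)]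
    have : (j = 0 ∧ i = 5) ∨ (j = 5 ∧ i = 0) ↔ (i = 0 ∧ j = 5) ∨ (i = 5 ∧ j = 0) := by tauto
    simp only [this]

/-- the partial matrix of the counterexample -/
def M6 : PMat G6 := restr G6 K6 K6_symm

theorem rows_of {A : Matrix (Fin 6) (Fin 6) ℝ} (hA : IsCompletion M6 A) (y : Fin 6 → ℝ) :
    (A *ᵥ y) 0 = A 0 1 * y 1 + A 0 2 * y 2 + A 0 3 * y 3 + A 0 4 * y 4 + y 5 ∧
    (A *ᵥ y) 1 = A 0 1 * y 0 + y 1 ∧ (A *ᵥ y) 2 = A 0 2 * y 0 + y 2 ∧
    (A *ᵥ y) 3 = A 0 3 * y 0 - y 3 ∧ (A *ᵥ y) 4 = A 0 4 * y 0 - y 4 ∧ (A *ᵥ y) 5 = y 0 := by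
  have hk : ∀ i j, s(i, j) ∈ G6 → A i j = K6 i j := fun i j h => hA.2 i j h
  have e00 : A 0 0 = 0 := (hk 0 0 (by decide)).trans (by simp [K6])
  have e05 : A 0 5 = 1 := (hk 0 5 (by decide)).trans (by simp [K6])
  have e11 : A 1 1 = 1 := (hk 1 1 (by decide)).trans (by simp [K6])
  have e12 : A 1 2 = 0 := (hk 1 2 (by decide)).trans (by simp [K6])
  have e13 : A 1 3 = 0 := (hk 1 3 (by decide)).trans (by simp [K6])
  have e14 : A 1 4 = 0 := (hk 1 4 (by decide)).trans (by simp [K6])
  have e15 : A 1 5 = 0 := (hk 1 5 (by decide)).trans (by simp [K6])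
  have e21 : A 2 1 = 0 := (hk 2 1 (by decide)).trans (by simp [K6])
  have e22 : A 2 2 = 1 := (hk 2 2 (by decide)).trans (by simp [K6])
  have e23 : A 2 3 = 0 := (hk 2 3 (by decide)).trans (by simp [K6])
  have e24 : A 2 4 = 0 := (hk 2 4 (by decide)).trans (by simp [K6])
  have e25 : A 2 5 = 0 := (hk 2 5 (by decide)).trans (by simp [K6])
  have e31 : A 3 1 = 0 := (hk 3 1 (by decide)).trans (by simp [K6])
  have e32 : A 3 2 = 0 := (hk 3 2 (by decide)).trans (by simp [K6])
  have e33 : A 3 3 = -1 := (hk 3 3 (by decide)).trans (by simp [K6])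
  have e34 : A 3 4 = 0 := (hk 3 4 (by decide)).trans (by simp [K6])
  have e35 : A 3 5 = 0 := (hk 3 5 (by decide)).trans (by simp [K6])
  have e41 : A 4 1 = 0 := (hk 4 1 (by decide)).trans (by simp [K6])
  have e42 : A 4 2 = 0 := (hk 4 2 (by decide)).trans (by simp [K6])
  have e43 : A 4 3 = 0 := (hk 4 3 (by decide)).trans (by simp [K6])
  have e44 : A 4 4 = -1 := (hk 4 4 (by decide)).trans (by simp [K6])
  have e45 : A 4 5 = 0 := (hk 4 5 (by decide)).trans (by simp [K6])
  have e50 : A 5 0 = 1 := (hk 5 0 (by decide)).trans (by simp [K6])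
  have e51 : A 5 1 = 0 := (hk 5 1 (by decide)).trans (by simp [K6])
  have e52 : A 5 2 = 0 := (hk 5 2 (by decide)).trans (by simp [K6])
  have e53 : A 5 3 = 0 := (hk 5 3 (by decide)).trans (by simp [K6])
  have e54 : A 5 4 = 0 := (hk 5 4 (by decide)).trans (by simp [K6])
  have e55 : A 5 5 = 0 := (hk 5 5 (by decide)).trans (by simp [K6])
  have e10 : A 1 0 = A 0 1 := hA.1.apply 0 1
  have e20 : A 2 0 = A 0 2 := hA.1.apply 0 2
  have e30 : A 3 0 = A 0 3 := hA.1.apply 0 3
  have e40 : A 4 0 = A 0 4 := hA.1.apply 0 4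
  have hr : ∀ i, (A *ᵥ y) i = A i 0 * y 0 + A i 1 * y 1 + A i 2 * y 2 + A i 3 * y 3 +
      A i 4 * y 4 + A i 5 * y 5 := by
    intro i
    simp only [Matrix.mulVec, dotProduct, Fin.sum_univ_six]
  refine ⟨?_, ?_, ?_, ?_, ?_, ?_⟩
  · rw [hr, e00, e05]; ring
  · rw [hr, e10, e11, e12, e13, e14, e15]; ring
  · rw [hr, e20, e21, e22, e23, e24, e25]; ring
  · rw [hr, e30, e31, e32, e33, e34, e35]; ring
  · rw [hr, e40, e41, e42, e43, e44, e45]; ring
  · rw [hr, e50, e51, e52, e53, e54, e55]; ring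

theorem ker_of {A : Matrix (Fin 6) (Fin 6) ℝ} (hA : IsCompletion M6 A) :
    ∀ y, A *ᵥ y = 0 → y = 0 := by
  intro y hy
  obtain ⟨h0, h1, h2, h3, h4, h5⟩ := rows_of hA y
  simp only [hy, Pi.zero_apply] at h0 h1 h2 h3 h4 h5
  have k0 : y 0 = 0 := h5.symm
  rw [k0] at h1 h2 h3 h4
  have k1 : y 1 = 0 := by linarith
  have k2 : y 2 = 0 := by linarith
  have k3 : y 3 = 0 := by linarith
  have k4 : y 4 = 0 := by linarith
  rw [k1, k2, k3, k4] at h0
  have k5 : y 5 = 0 := by linarith
  funext i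
  fin_cases i
  · exact k0
  · exact k1
  · exact k2
  · exact k3
  · exact k4
  · exact k5

theorem quad_of {A : Matrix (Fin 6) (Fin 6) ℝ} (hA : IsCompletion M6 A) (y : Fin 6 → ℝ) :
    y ⬝ᵥ (A *ᵥ y) = 2 * y 0 * y 5 + 2 * y 0 * (A 0 1 * y 1 + A 0 2 * y 2 + A 0 3 * y 3 +
      A 0 4 * y 4) + y 1 ^ 2 + y 2 ^ 2 - y 3 ^ 2 - y 4 ^ 2 := by
  obtain ⟨h0, h1, h2, h3, h4, h5⟩ := rows_of hA y
  simp only [dotProduct, Fin.sum_univ_six, h0, h1, h2, h3, h4, h5]
  ring

/-- lower bound of the number of eigenvalues by an injective parametrisation -/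
theorem le_of_map {A : Matrix (Fin 6) (Fin 6) ℝ} (f : (Fin 3 → ℝ) →ₗ[ℝ] (Fin 6 → ℝ))
    (hf : Function.Injective f) : Module.finrank ℝ (LinearMap.range f) = 3 := by
  rw [LinearMap.finrank_range_of_inj hf]
  simp

theorem inertia_of {A : Matrix (Fin 6) (Fin 6) ℝ} (hA : IsCompletion M6 A) :
    HasInertia A 3 3 := by
  let f : (Fin 3 → ℝ) →ₗ[ℝ] (Fin 6 → ℝ) :=
    { toFun := fun z => ![z 2, z 0, z 1, 0, 0, z 2 / 2 - A 0 1 * z 0 - A 0 2 * z 1]
      map_add' := by
        intro z w; funext i; fin_cases i <;> simp <;> ring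
      map_smul' := by
        intro c z; funext i; fin_cases i <;> simp <;> ring }
  let g : (Fin 3 → ℝ) →ₗ[ℝ] (Fin 6 → ℝ) :=
    { toFun := fun z => ![z 2, 0, 0, z 0, z 1, -z 2 / 2 - A 0 3 * z 0 - A 0 4 * z 1]
      map_add' := by
        intro z w; funext i; fin_cases i <;> simp <;> ring
      map_smul' := by
        intro c z; funext i; fin_cases i <;> simp <;> ring }
  have hf : ∀ z, f z ⬝ᵥ (A *ᵥ f z) = z 0 ^ 2 + z 1 ^ 2 + z 2 ^ 2 := by
    intro z
    rw [quad_of hA]
    have e0 : f z 0 = z 2 := rfl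
    have e1 : f z 1 = z 0 := rfl
    have e2 : f z 2 = z 1 := rfl
    have e3 : f z 3 = 0 := rfl
    have e4 : f z 4 = 0 := rfl
    have e5 : f z 5 = z 2 / 2 - A 0 1 * z 0 - A 0 2 * z 1 := rfl
    rw [e0, e1, e2, e3, e4, e5]
    ring
  have hg : ∀ z, g z ⬝ᵥ (A *ᵥ g z) = -(z 0 ^ 2 + z 1 ^ 2 + z 2 ^ 2) := by
    intro z
    rw [quad_of hA]
    have e0 : g z 0 = z 2 := rfl
    have e1 : g z 1 = 0 := rfl
    have e2 : g z 2 = 0 := rfl
    have e3 : g z 3 = z 0 := rfl
    have e4 : g z 4 = z 1 := rfl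
    have e5 : g z 5 = -z 2 / 2 - A 0 3 * z 0 - A 0 4 * z 1 := rfl
    rw [e0, e1, e2, e3, e4, e5]
    ring
  have hpos : ∀ z : Fin 3 → ℝ, z ≠ 0 → 0 < z 0 ^ 2 + z 1 ^ 2 + z 2 ^ 2 := by
    intro z hz
    by_contra hcon
    push Not at hcon
    apply hz
    have h0 : z 0 ^ 2 = 0 := by nlinarith [sq_nonneg (z 0), sq_nonneg (z 1), sq_nonneg (z 2)]
    have h1 : z 1 ^ 2 = 0 := by nlinarith [sq_nonneg (z 0), sq_nonneg (z 1), sq_nonneg (z 2)]
    have h2 : z 2 ^ 2 = 0 := by nlinarith [sq_nonneg (z 0), sq_nonneg (z 1), sq_nonneg (z 2)]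
    funext i
    fin_cases i
    · exact pow_eq_zero_iff (two_ne_zero) |>.1 h0
    · exact pow_eq_zero_iff (two_ne_zero) |>.1 h1
    · exact pow_eq_zero_iff (two_ne_zero) |>.1 h2
  have hfi : Function.Injective f := by
    rw [injective_iff_map_eq_zero]
    intro z hz
    by_contra h0
    have := hpos z h0
    rw [← hf z, hz] at this
    simp at this
  have hgi : Function.Injective g := by
    rw [injective_iff_map_eq_zero]
    intro z hz
    by_contra h0
    have := hpos z h0
    have h1 := hg z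
    rw [hz] at h1
    simp at h1
    linarith
  have hfin : Module.finrank ℝ (LinearMap.range f) = 3 := le_of_map (A := A) f hfi
  have hgin : Module.finrank ℝ (LinearMap.range g) = 3 := le_of_map (A := A) g hgi
  obtain ⟨h1, h2⟩ := R54.IN.inertia_eq (isHermitian_of hA.1) (LinearMap.range f)
    (LinearMap.range g) (by
      rintro x ⟨z, rfl⟩ hx
      rw [hf]
      exact hpos z fun h => hx (by rw [h, map_zero])) (by
      rintro x ⟨z, rfl⟩ hx
      rw [hg]
      have := hpos z fun h => hx (by rw [h, map_zero])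
      linarith) (by rw [hfin, hgin]; simp)
  exact ⟨h1.trans hfin, h2.trans hgin⟩

theorem min6 : MinCompletable M6 6 :=
  ⟨⟨K6, restr_completion G6 K6 K6_symm, rank_eq_of_ker (ker_of (restr_completion G6 K6 K6_symm))⟩,
    fun _ hA => (rank_eq_of_ker (ker_of hA)).ge⟩

theorem not_bic : ¬ ComplementBicolorable G6 3 3 := by
  rintro ⟨c, hc, h1, -⟩
  have h : ∀ i : Fin 6, s(0, i) ∉ G6 → c 0 ≠ c i := fun i => hc 0 i
  have c1 := h 1 (by decide)
  have c2 := h 2 (by decide)
  have c3 := h 3 (by decide)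
  have c4 := h 4 (by decide)
  rw [Finset.card_filter] at h1
  simp only [Fin.sum_univ_six] at h1
  cases h0 : c 0 <;> cases k1 : c 1 <;> cases k2 : c 2 <;> cases k3 : c 3 <;> cases k4 : c 4 <;>
    cases k5 : c 5 <;> simp_all

/-- the centre of an open set of partial matrices with all completions nonsingular -/
def D6 : Matrix (Fin 6) (Fin 6) ℝ := Matrix.diagonal (fun i => if i = 0 then -1 else 1)

theorem D6_symm : D6.IsSymm := Matrix.isSymm_diagonal _

theorem mem_ne : ∀ i j : Fin 6, i ≠ 0 → j ≠ 0 → s(i, j) ∈ G6 := by decide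

theorem mem_succ (i j : Fin 5) : s((i.succ : Fin 6), j.succ) ∈ G6 :=
  mem_ne _ _ (Fin.succ_ne_zero i) (Fin.succ_ne_zero j)

theorem mem_zero : s((0 : Fin 6), 0) ∈ G6 := by decide

theorem typical6 : TypicalRank G6 6 := by
  classical
  let _ : Fintype ↥G6 := Fintype.ofFinite ↥G6
  refine ⟨Metric.ball (restr G6 D6 D6_symm) (1 / 10), Metric.isOpen_ball,
    ⟨_, Metric.mem_ball_self (by norm_num)⟩, fun M hM => ?_⟩
  rw [Metric.mem_ball, dist_pi_lt_iff (by norm_num)] at hM
  have hker : ∀ A, IsCompletion M A → ∀ y, A *ᵥ y = 0 → y = 0 := by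
    intro A hA y hy
    have hk : ∀ i j, s(i, j) ∈ G6 → |A i j - D6 i j| < 1 / 10 := by
      intro i j h
      have := hM ⟨s(i, j), h⟩
      rw [← hA.2 i j h, Real.dist_eq] at this
      exact this
    have hmem := mem_succ
    have hb : ∀ i j : Fin 5, (if i = j then y j.succ ^ 2 else 0) -
        (1 / 20) * (y i.succ ^ 2 + y j.succ ^ 2) ≤ y i.succ * (A i.succ j.succ * y j.succ) := by
      intro i j
      have h1 := abs_lt.1 (hk _ _ (hmem i j))
      by_cases hij : i = j
      · subst hij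
        have h2 : D6 i.succ i.succ = 1 := by simp [D6]
        rw [h2] at h1
        rw [if_pos rfl]
        nlinarith [sq_nonneg (y i.succ), h1.1]
      · have h2 : D6 i.succ j.succ = 0 := by
          simp [D6, Matrix.diagonal_apply_ne _ (fun h => hij (Fin.succ_injective _ h))]
        rw [h2, sub_zero] at h1
        rw [if_neg hij]
        nlinarith [sq_nonneg (y i.succ - y j.succ), sq_nonneg (y i.succ + y j.succ), h1.1, h1.2]
    have h00 := abs_lt.1 (hk 0 0 mem_zero)
    have hD00 : D6 0 0 = -1 := by simp [D6]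
    rw [hD00] at h00
    have hrow : ∀ i, (A *ᵥ y) i = A i 0 * y 0 + ∑ j : Fin 5, A i j.succ * y j.succ := by
      intro i
      simp only [Matrix.mulVec, dotProduct]
      rw [Fin.sum_univ_succ]
    have hz : ∀ i, (A *ᵥ y) i = 0 := fun i => by rw [hy]; rfl
    have e0 : y 0 * (A 0 0 * y 0 + ∑ j : Fin 5, A 0 j.succ * y j.succ) = 0 := by
      rw [← hrow, hz, mul_zero]
    have e1 : ∑ i : Fin 5, y i.succ * (A i.succ 0 * y 0 + ∑ j : Fin 5, A i.succ j.succ * y j.succ)
        = 0 := by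
      refine Finset.sum_eq_zero fun i _ => ?_
      rw [← hrow, hz, mul_zero]
    have e2 : ∑ i : Fin 5, y i.succ * (A i.succ 0 * y 0) =
        y 0 * ∑ j : Fin 5, A 0 j.succ * y j.succ := by
      rw [Finset.mul_sum]
      refine Finset.sum_congr rfl fun i _ => ?_
      rw [hA.1.apply 0 i.succ]; ring
    simp only [mul_add, Finset.sum_add_distrib] at e1
    rw [e2] at e1
    have e3 : ∑ i : Fin 5, y i.succ * ∑ j : Fin 5, A i.succ j.succ * y j.succ =
        A 0 0 * y 0 ^ 2 := by linarith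
    have e4 : ∑ i : Fin 5, ∑ j : Fin 5, ((if i = j then y j.succ ^ 2 else 0) -
        (1 / 20) * (y i.succ ^ 2 + y j.succ ^ 2)) ≤
        ∑ i : Fin 5, y i.succ * ∑ j : Fin 5, A i.succ j.succ * y j.succ := by
      refine Finset.sum_le_sum fun i _ => ?_
      rw [Finset.mul_sum]
      exact Finset.sum_le_sum fun j _ => hb i j
    have e5 : ∑ i : Fin 5, ∑ j : Fin 5, ((if i = j then y j.succ ^ 2 else 0) -
        (1 / 20) * (y i.succ ^ 2 + y j.succ ^ 2)) = (1 / 2) * ∑ i : Fin 5, y i.succ ^ 2 := by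
      simp only [Finset.sum_sub_distrib, ← Finset.mul_sum, Finset.sum_add_distrib,
        Finset.sum_ite_eq, Finset.mem_univ, if_true, Finset.sum_const, Finset.card_univ,
        Fintype.card_fin, nsmul_eq_mul]
      push_cast
      ring
    rw [e5, e3] at e4
    have hnn : 0 ≤ ∑ i : Fin 5, y i.succ ^ 2 := Finset.sum_nonneg fun i _ => sq_nonneg _
    have hy0 : y 0 ^ 2 = 0 := by nlinarith [sq_nonneg (y 0), h00.2]
    have hys : ∑ i : Fin 5, y i.succ ^ 2 = 0 := by
      rw [hy0, mul_zero] at e4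
      linarith
    rw [Finset.sum_eq_zero_iff_of_nonneg (fun i _ => sq_nonneg _)] at hys
    funext i
    refine Fin.cases ?_ (fun j => ?_) i
    · exact pow_eq_zero_iff (two_ne_zero) |>.1 hy0
    · exact pow_eq_zero_iff (two_ne_zero) |>.1 (hys j (Finset.mem_univ _))
  have hex : ∃ A, IsCompletion M A := by
    refine ⟨fun i j => if h : s(i, j) ∈ G6 then M ⟨s(i, j), h⟩ else 0, ?_, ?_⟩
    · ext i j
      simp only [Matrix.transpose_apply]
      have : s(j, i) = s(i, j) := Sym2.eq_swap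
      simp only [this]
    · intro i j h
      simp only [dif_pos h]
  obtain ⟨A, hA⟩ := hex
  exact ⟨⟨A, hA, rank_eq_of_ker (hker A hA)⟩, fun B hB => (rank_eq_of_ker (hker B hB)).ge⟩

/-- **Result.** (1) Q1 fails as stated: there is a full-rank typical graph on six vertices and a
partial matrix minimally completable to rank `6`, all of whose completions have inertia
`(3, 3, 0)`, although the complement has no proper bicoloring with three red and three blue
vertices.  (2) Q1 holds for robust (generic) partial matrices: for every graph `G` on `[N]`, if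
`M` lies in an open set of partial matrices minimally completable to rank `N`, and a completion
of `M` has inertia `(m, n, 0)`, then the complement of `G` has a proper bicoloring with exactly
`m` red and `n` blue vertices. -/
theorem result :
    (∃ M : PMat G6, TypicalRank G6 6 ∧ MinCompletable M 6 ∧
      (∀ A, IsCompletion M A → HasInertia A 3 3) ∧ ¬ ComplementBicolorable G6 3 3) ∧
    (∀ (N : ℕ) (G : SGraph N) (U : Set (PMat G)), IsOpen U →
      (∀ M ∈ U, MinCompletable M N) → ∀ M ∈ U, ∀ A, IsCompletion M A → ∀ m n : ℕ,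
        HasInertia A m n → ComplementBicolorable G m n) :=
  ⟨⟨M6, typical6, min6, fun _ hA => inertia_of hA, not_bic⟩,
    fun _ G U hU hUr M hM A hA m n hI => generic G U hU hUr M hM A hA m n hI⟩

end Pool.Agent.Results.MP_97e4cf_co.InertiaBicoloring
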