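import Pool.Agent.R113.IN.Inertia

/-!
# MP_97e4cf_co, Q1: negative answer

`G^c` is the star with centre `1` and leaves `2, ..., N - 1` together with the isolated vertex `0`.
-/

set_option autoImplicit false

open scoped Matrix

namespace Pool.Agent.Results.MP_97e4cf_co.InertiaNotBicoloring

open Pool.Agent.R113.IN

/-- A semisimple graph on `Fin n` is given by its edge set `E`, a set of unordered pairs in which
loops `s(i, i)` are allowed. A `G`-partial matrix assigns a real number to each edge. The matrix `A`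
completes `M` when it is symmetric and agrees with `M` on all edges. -/
def IsCompletion {n : ℕ} {E : Set (Sym2 (Fin n))} (M : E → ℝ) (A : Matrix (Fin n) (Fin n) ℝ) :
    Prop :=
  A.IsSymm ∧ ∀ (i j : Fin n) (h : s(i, j) ∈ E), A i j = M ⟨s(i, j), h⟩

/-- The partial matrix `M` is minimally completable to rank `r`: it has a completion of rank `r`
and none of smaller rank. -/
def MinCompletable {n : ℕ} {E : Set (Sym2 (Fin n))} (M : E → ℝ) (r : ℕ) : Prop :=
  (∃ A : Matrix (Fin n) (Fin n) ℝ, IsCompletion M A ∧ A.rank = r) ∧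
    ∀ A : Matrix (Fin n) (Fin n) ℝ, IsCompletion M A → r ≤ A.rank

/-- `r` is a typical rank: some nonempty open set of partial matrices consists of partial matrices
that are minimally completable to rank `r`. -/
def IsTypicalRank {n : ℕ} (E : Set (Sym2 (Fin n))) (r : ℕ) : Prop :=
  ∃ U : Set (E → ℝ), IsOpen U ∧ U.Nonempty ∧ ∀ M ∈ U, MinCompletable M r

/-- `G` is full-rank typical -/
def FullRankTypical {n : ℕ} (E : Set (Sym2 (Fin n))) : Prop := IsTypicalRank E n

/-- every completion of `M` has inertia `(p, q, n - p - q)`: exactly `p` positive and `q` negative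
eigenvalues, counted with multiplicity (as roots of the characteristic polynomial) -/
def HasInertia {n : ℕ} {E : Set (Sym2 (Fin n))} (M : E → ℝ) (p q : ℕ) : Prop :=
  ∀ A : Matrix (Fin n) (Fin n) ℝ, IsCompletion M A →
    (A.charpoly.roots.filter (fun x => 0 < x)).card = p ∧
      (A.charpoly.roots.filter (fun x => x < 0)).card = q

/-- a proper bicoloring (red is `true`, blue is `false`) of the complement of `G`: whenever
`{i, j}` (possibly `i = j`, a loop) is not an edge of `G`, the colours of `i` and `j` differ -/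
def ProperBicoloring {n : ℕ} (E : Set (Sym2 (Fin n))) (c : Fin n → Bool) : Prop :=
  ∀ i j : Fin n, s(i, j) ∉ E → c i ≠ c j

/-! ### the graph -/

/-- all pairs (and all loops) except `{1, x}` with `x ≥ 2` -/
def E (n : ℕ) : Set (Sym2 (Fin (n + 2))) := {e | ¬ ∃ x : Fin n, e = s(1, x.succ.succ)}

theorem mem_E {n : ℕ} (i j : Fin (n + 2)) :
    s(i, j) ∉ E n ↔ ∃ x : Fin n, (i = 1 ∧ j = x.succ.succ) ∨ (i = x.succ.succ ∧ j = 1) := by
  simp only [E, Set.mem_ofPred_eq, not_not, Sym2.eq_iff]

theorem card_eq_of_ker {n : ℕ} (A : Matrix (Fin n) (Fin n) ℝ)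
    (h : ∀ v, A *ᵥ v = 0 → v = 0) : A.rank = n := by
  have hdet : A.det ≠ 0 := by
    intro h0
    obtain ⟨v, hv, hv0⟩ := Matrix.exists_mulVec_eq_zero_iff.2 h0
    exact hv (h v hv0)
  have := Matrix.rank_of_isUnit A ((Matrix.isUnit_iff_isUnit_det A).2 (isUnit_iff_ne_zero.2 hdet))
  simpa using this

theorem exists_completion {n : ℕ} {E : Set (Sym2 (Fin n))} (M : E → ℝ) :
    ∃ A : Matrix (Fin n) (Fin n) ℝ, IsCompletion M A := by
  classical
  refine ⟨fun i j => if h : s(i, j) ∈ E then M ⟨s(i, j), h⟩ else 0, ?_, ?_⟩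
  · ext i j
    have h1 : ∀ e e' : Sym2 (Fin n), e = e' →
        (if h : e ∈ E then M ⟨e, h⟩ else 0) = (if h : e' ∈ E then M ⟨e', h⟩ else 0) := by
      rintro e e' rfl; rfl
    exact h1 _ _ Sym2.eq_swap
  · intro i j h
    simp [h]

theorem minCompletable_of {n : ℕ} {E : Set (Sym2 (Fin n))} (M : E → ℝ)
    (h : ∀ A : Matrix (Fin n) (Fin n) ℝ, IsCompletion M A → A.rank = n) : MinCompletable M n := by
  obtain ⟨A, hA⟩ := exists_completion M
  exact ⟨⟨A, hA, h A hA⟩, fun B hB => (h B hB).ge⟩

/-! ### the graph is full-rank typical -/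

/-- the sign of a vertex: `1` for `0, 1` and `-1` for the others -/
def sg {n : ℕ} (i : Fin (n + 2)) : ℝ := if (i : ℕ) < 2 then 1 else -1

theorem sg_sq {n : ℕ} (i : Fin (n + 2)) : sg i * sg i = 1 := by
  unfold sg; split_ifs <;> norm_num

theorem fullRankTypical_E (n : ℕ) : FullRankTypical (E n) := by
  classical
  set r : ℝ := 1 / (2 * ((n : ℝ) + 2)) with hr
  have hn : (0 : ℝ) < (n : ℝ) + 2 := by positivity
  have hr0 : 0 < r := by positivity
  set J : Fin (n + 2) → Fin (n + 2) → ℝ := fun i j => if i = j then sg i else 0 with hJ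
  have hJs : ∀ i j, J i j = J j i := by
    intro i j
    simp only [hJ]
    by_cases h : i = j
    · subst h; rfl
    · rw [if_neg h, if_neg (Ne.symm h)]
  set M0 : E n → ℝ := fun e => Sym2.lift ⟨J, hJs⟩ e.1 with hM0
  refine ⟨Set.pi Set.univ (fun e => Metric.ball (M0 e) r),
    isOpen_set_pi Set.finite_univ (fun e _ => Metric.isOpen_ball),
    ⟨M0, fun e _ => Metric.mem_ball_self hr0⟩, ?_⟩
  intro M hM
  apply minCompletable_of
  rintro A ⟨hsym, hA⟩
  apply card_eq_of_ker
  intro v hv
  by_contra hne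
  -- the symmetrized coefficients
  have hc : ∀ i j, |(sg i + sg j) / 2 * A i j - (if i = j then 1 else 0)| ≤ r := by
    intro i j
    by_cases hE : s(i, j) ∈ E n
    · have h1 : |A i j - J i j| < r := by
        have := hM ⟨s(i, j), hE⟩ (Set.mem_univ _)
        rw [Metric.mem_ball, Real.dist_eq] at this
        rw [hA i j hE]
        exact this
      by_cases hs : sg i = sg j
      · have h2 : (sg i + sg j) / 2 * A i j - (if i = j then 1 else 0) =
            sg i * (A i j - J i j) := by
          rw [← hs, mul_sub]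
          have : sg i * J i j = if i = j then 1 else 0 := by
            simp only [hJ]
            split_ifs
            · exact sg_sq i
            · simp
          rw [this]
          ring
        rw [h2, abs_mul]
        have h3 : |sg i| = 1 := by unfold sg; split_ifs <;> simp
        rw [h3, one_mul]
        exact h1.le
      · have h2 : sg i + sg j = 0 := by
          unfold sg at hs ⊢
          split_ifs at hs ⊢ <;> simp_all
        have h3 : i ≠ j := fun h => hs (by rw [h])
        rw [h2, if_neg h3]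
        simp [hr0.le]
    · obtain ⟨x, h | h⟩ := (mem_E i j).1 hE
      · have h2 : sg i + sg j = 0 := by
          rw [h.1, h.2]; unfold sg; simp
        have h3 : i ≠ j := by
          rintro rfl
          have : (1 : Fin (n + 2)) = x.succ.succ := h.1.symm.trans h.2
          have := congrArg Fin.val this
          simp at this
        rw [h2, if_neg h3]
        simp [hr0.le]
      · have h2 : sg i + sg j = 0 := by
          rw [h.1, h.2]; unfold sg; simp
        have h3 : i ≠ j := by
          rintro rfl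
          have : (1 : Fin (n + 2)) = x.succ.succ := h.2.symm.trans h.1
          have := congrArg Fin.val this
          simp at this
        rw [h2, if_neg h3]
        simp [hr0.le]
  have h1 : ∑ i, ∑ j, (sg i + sg j) / 2 * A i j * (v i * v j) = 0 := by
    have e1 : ∑ i, ∑ j, sg i * A i j * (v i * v j) = 0 := by
      apply Finset.sum_eq_zero
      intro i _
      have : ∑ j, A i j * v j = 0 := by
        have := congrFun hv i
        simpa [Matrix.mulVec, dotProduct] using this
      calc ∑ j, sg i * A i j * (v i * v j) = sg i * v i * ∑ j, A i j * v j := by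
            rw [Finset.mul_sum]; exact Finset.sum_congr rfl fun j _ => by ring
        _ = 0 := by rw [this, mul_zero]
    have e2 : ∑ i, ∑ j, sg j * A i j * (v i * v j) = 0 := by
      rw [Finset.sum_comm]
      rw [← e1]
      refine Finset.sum_congr rfl fun i _ => Finset.sum_congr rfl fun j _ => ?_
      rw [hsym.apply j i]
      ring
    have : ∑ i, ∑ j, (sg i + sg j) / 2 * A i j * (v i * v j) =
        (∑ i, ∑ j, sg i * A i j * (v i * v j) + ∑ i, ∑ j, sg j * A i j * (v i * v j)) / 2 := by
      rw [← Finset.sum_add_distrib, Finset.sum_div]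
      refine Finset.sum_congr rfl fun i _ => ?_
      rw [← Finset.sum_add_distrib, Finset.sum_div]
      exact Finset.sum_congr rfl fun j _ => by ring
    rw [this, e1, e2]; norm_num
  have h2 : ∑ i, ∑ j, (sg i + sg j) / 2 * A i j * (v i * v j) ≥
      ∑ i, v i ^ 2 - r * (∑ i, |v i|) ^ 2 := by
    have e1 : ∑ i, v i ^ 2 = ∑ i, ∑ j, (if i = j then (1 : ℝ) else 0) * (v i * v j) := by
      refine Finset.sum_congr rfl fun i _ => ?_
      simp [sq]
    have e2 : (∑ i, |v i|) ^ 2 = ∑ i, ∑ j, |v i| * |v j| := by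
      rw [sq, Finset.sum_mul_sum]
    rw [e1, e2, Finset.mul_sum, ← Finset.sum_sub_distrib]
    apply Finset.sum_le_sum
    intro i _
    rw [Finset.mul_sum, ← Finset.sum_sub_distrib]
    apply Finset.sum_le_sum
    intro j _
    have h3 := hc i j
    have h4 : |((sg i + sg j) / 2 * A i j - (if i = j then 1 else 0)) * (v i * v j)| ≤
        r * (|v i| * |v j|) := by
      rw [abs_mul, abs_mul (v i)]
      exact mul_le_mul_of_nonneg_right h3 (by positivity)
    have h5 := (abs_le.1 h4).1
    linarith
  have h3 : (∑ i, |v i|) ^ 2 ≤ ((n : ℝ) + 2) * ∑ i, v i ^ 2 := by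
    have := sq_sum_le_card_mul_sum_sq (s := (Finset.univ : Finset (Fin (n + 2))))
      (f := fun i => |v i|)
    simpa using this
  have h4 : 0 < ∑ i, v i ^ 2 := by
    obtain ⟨i, hi⟩ := Function.ne_iff.1 hne
    have hi' : v i ≠ 0 := hi
    exact Finset.sum_pos' (fun i _ => sq_nonneg _) ⟨i, Finset.mem_univ _, by positivity⟩
  have h5 : r * (∑ i, |v i|) ^ 2 ≤ (∑ i, v i ^ 2) / 2 := by
    calc r * (∑ i, |v i|) ^ 2 ≤ r * (((n : ℝ) + 2) * ∑ i, v i ^ 2) :=
          mul_le_mul_of_nonneg_left h3 hr0.le
      _ = (∑ i, v i ^ 2) / 2 := by rw [hr]; field_simp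
  linarith

/-! ### the partial matrices with a bad inertia -/

/-- the prescribed entries: `1` at `{0, 1}`, `δ x` at the loop of the leaf `x + 2`, and `0` at all
the other edges -/
def val {n : ℕ} (δ : Fin n → ℝ) (i j : Fin (n + 2)) : ℝ :=
  if (i : ℕ) + j = 1 then 1 else if i = j then Fin.cases 0 (fun i' => Fin.cases 0 δ i') i else 0

theorem val_symm {n : ℕ} (δ : Fin n → ℝ) (i j : Fin (n + 2)) : val δ i j = val δ j i := by
  unfold val
  by_cases h : i = j
  · subst h; rfl
  · rw [if_neg h, if_neg (Ne.symm h), add_comm]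

/-- the partial matrix -/
noncomputable def part {n : ℕ} (δ : Fin n → ℝ) : E n → ℝ :=
  fun e => Sym2.lift ⟨val δ, val_symm δ⟩ e.1

theorem completion_entry {n : ℕ} (δ : Fin n → ℝ) (A : Matrix (Fin (n + 2)) (Fin (n + 2)) ℝ)
    (hA : IsCompletion (part δ) A) :
    A 0 0 = 0 ∧ A 0 1 = 1 ∧ A 1 0 = 1 ∧ A 1 1 = 0 ∧ (∀ x : Fin n, A 0 x.succ.succ = 0) ∧
      (∀ x : Fin n, A x.succ.succ 0 = 0) ∧ (∀ x : Fin n, A x.succ.succ 1 = A 1 x.succ.succ) ∧
      (∀ x y : Fin n, A x.succ.succ y.succ.succ = if x = y then δ x else 0) := by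
  have key : ∀ i j, s(i, j) ∈ E n → A i j = val δ i j := fun i j h => hA.2 i j h
  have hmem : ∀ i j : Fin (n + 2), (¬ ((i : ℕ) = 1 ∧ 2 ≤ (j : ℕ))) →
      (¬ (2 ≤ (i : ℕ) ∧ (j : ℕ) = 1)) → s(i, j) ∈ E n := by
    intro i j h1 h2
    by_contra h
    obtain ⟨x, h | h⟩ := (mem_E i j).1 h
    · exact h1 ⟨by rw [h.1]; simp, by rw [h.2]; simp⟩
    · exact h2 ⟨by rw [h.1]; simp, by rw [h.2]; simp⟩
  refine ⟨?_, ?_, ?_, ?_, ?_, ?_, ?_, ?_⟩
  · rw [key _ _ (hmem _ _ (by simp) (by simp))]
    simp [val]
  · rw [key _ _ (hmem _ _ (by simp) (by simp))]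
    simp [val]
  · rw [key _ _ (hmem _ _ (by simp) (by simp))]
    simp [val]
  · rw [key _ _ (hmem _ _ (by simp) (by simp))]
    have h1 : (1 : Fin (n + 2)) = Fin.succ 0 := rfl
    rw [val, if_neg (by simp), if_pos rfl, h1, Fin.cases_succ, Fin.cases_zero]
  · intro x
    rw [key _ _ (hmem _ _ (by simp) (by simp))]
    rw [val, if_neg (by simp), if_neg]
    intro h
    have := congrArg Fin.val h
    simp at this
  · intro x
    rw [key _ _ (hmem _ _ (by simp) (by simp))]
    rw [val, if_neg (by simp), if_neg]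
    intro h
    have := congrArg Fin.val h
    simp at this
  · intro x
    exact hA.1.apply _ _
  · intro x y
    rw [key _ _ (hmem _ _ (by simp) (by simp))]
    rw [val, if_neg (by simp; omega)]
    by_cases h : x = y
    · subst h
      rw [if_pos rfl, if_pos rfl, Fin.cases_succ, Fin.cases_succ]
    · rw [if_neg h, if_neg]
      intro h'
      exact h (Fin.succ_injective _ (Fin.succ_injective _ h'))

theorem mulVec_entry {n : ℕ} (δ : Fin n → ℝ) (A : Matrix (Fin (n + 2)) (Fin (n + 2)) ℝ)
    (hA : IsCompletion (part δ) A) (v : Fin (n + 2) → ℝ) :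
    (A *ᵥ v) 0 = v 1 ∧ (A *ᵥ v) 1 = v 0 + ∑ x : Fin n, A 1 x.succ.succ * v x.succ.succ ∧
      ∀ x : Fin n, (A *ᵥ v) x.succ.succ = A 1 x.succ.succ * v 1 + δ x * v x.succ.succ := by
  obtain ⟨h00, h01, h10, h11, h0x, hx0, hx1, hxy⟩ := completion_entry δ A hA
  have e1 : (Fin.succ 0 : Fin (n + 2)) = 1 := rfl
  refine ⟨?_, ?_, ?_⟩
  · rw [Matrix.mulVec, dotProduct, Fin.sum_univ_succ, Fin.sum_univ_succ, e1, h00, h01]
    simp [h0x]
  · rw [Matrix.mulVec, dotProduct, Fin.sum_univ_succ, Fin.sum_univ_succ, e1, h10, h11]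
    ring
  · intro x
    rw [Matrix.mulVec, dotProduct, Fin.sum_univ_succ, Fin.sum_univ_succ, e1, hx0, hx1]
    simp [hxy]

theorem quad {n : ℕ} (δ : Fin n → ℝ) (A : Matrix (Fin (n + 2)) (Fin (n + 2)) ℝ)
    (hA : IsCompletion (part δ) A) (v : Fin (n + 2) → ℝ) :
    v ⬝ᵥ (A *ᵥ v) = 2 * v 1 * (v 0 + ∑ x : Fin n, A 1 x.succ.succ * v x.succ.succ) +
      ∑ x : Fin n, δ x * v x.succ.succ ^ 2 := by
  obtain ⟨h0, h1, h2⟩ := mulVec_entry δ A hA v
  have e1 : (Fin.succ 0 : Fin (n + 2)) = 1 := rfl
  rw [dotProduct, Fin.sum_univ_succ, Fin.sum_univ_succ, e1, h0, h1]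
  have : ∑ i : Fin n, v i.succ.succ * (A *ᵥ v) i.succ.succ =
      v 1 * (∑ x : Fin n, A 1 x.succ.succ * v x.succ.succ) +
        ∑ x : Fin n, δ x * v x.succ.succ ^ 2 := by
    rw [Finset.mul_sum, ← Finset.sum_add_distrib]
    refine Finset.sum_congr rfl fun x _ => ?_
    rw [h2 x]
    ring
  rw [this]
  ring

theorem rank_eq {n : ℕ} (δ : Fin n → ℝ) (hδ : ∀ x, δ x ≠ 0)
    (A : Matrix (Fin (n + 2)) (Fin (n + 2)) ℝ) (hA : IsCompletion (part δ) A) :
    A.rank = n + 2 := by
  apply card_eq_of_ker
  intro v hv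
  obtain ⟨h0, h1, h2⟩ := mulVec_entry δ A hA v
  rw [hv] at h0 h1
  have h3 : v 1 = 0 := h0.symm
  have h4 : ∀ x : Fin n, v x.succ.succ = 0 := by
    intro x
    have h5 := h2 x
    rw [hv, h3, mul_zero, zero_add] at h5
    rcases mul_eq_zero.1 h5.symm with h | h
    · exact absurd h (hδ x)
    · exact h
  have h5 : v 0 = 0 := by
    simp only [h4, mul_zero, Finset.sum_const_zero, add_zero] at h1
    exact h1.symm
  funext i
  refine Fin.cases h5 (fun i' => ?_) i
  refine Fin.cases ?_ (fun x => ?_) i'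
  · exact h3
  · exact h4 x

/-- the subspaces on which the form is definite -/
noncomputable def ext {n : ℕ} (t : Fin n → ℝ) (s : ℝ) (P : Fin n → Prop) [DecidablePred P] :
    (Option {x // P x} → ℝ) →ₗ[ℝ] (Fin (n + 2) → ℝ) where
  toFun z := fun i => Fin.cases
    (s * z none - ∑ x : Fin n, t x * (if h : P x then z (some ⟨x, h⟩) else 0))
    (fun i' => Fin.cases (z none) (fun x => if h : P x then z (some ⟨x, h⟩) else 0) i') i
  map_add' := by
    intro z w
    funext i
    refine Fin.cases ?_ (fun i' => ?_) i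
    · simp only [Fin.cases_zero, Pi.add_apply]
      have : ∀ x : Fin n, t x * (if h : P x then (z + w) (some ⟨x, h⟩) else 0) =
          t x * (if h : P x then z (some ⟨x, h⟩) else 0) +
            t x * (if h : P x then w (some ⟨x, h⟩) else 0) := by
        intro x; split_ifs <;> simp [mul_add]
      simp only [Pi.add_apply] at this
      simp only [this, Finset.sum_add_distrib]
      ring
    · refine Fin.cases ?_ (fun x => ?_) i'
      · rfl
      · by_cases h : P x <;> simp [h]
  map_smul' := by
    intro c z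
    funext i
    refine Fin.cases ?_ (fun i' => ?_) i
    · simp only [Fin.cases_zero, Pi.smul_apply, smul_eq_mul, RingHom.id_apply]
      have : ∀ x : Fin n, t x * (if h : P x then c * z (some ⟨x, h⟩) else 0) =
          c * (t x * (if h : P x then z (some ⟨x, h⟩) else 0)) := by
        intro x; split_ifs <;> ring
      simp only [this, ← Finset.mul_sum]
      ring
    · refine Fin.cases ?_ (fun x => ?_) i'
      · rfl
      · by_cases h : P x <;> simp [h]

theorem definite {n : ℕ} (δ : Fin n → ℝ) (A : Matrix (Fin (n + 2)) (Fin (n + 2)) ℝ)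
    (hA : IsCompletion (part δ) A) (s : ℝ) (hs : s * s = 1) (P : Fin n → Prop) [DecidablePred P]
    (hP : ∀ x, P x → δ x = s) (z : Option {x // P x} → ℝ) (hz : z ≠ 0) :
    0 < s * (ext (fun x => A 1 x.succ.succ) s P z ⬝ᵥ
      (A *ᵥ (ext (fun x => A 1 x.succ.succ) s P z))) := by
  rw [quad δ A hA]
  set v := ext (fun x => A 1 x.succ.succ) s P z with hv
  have h1 : v 1 = z none := by
    have e1 : (1 : Fin (n + 2)) = Fin.succ 0 := rfl
    rw [e1]; rfl
  have hx : ∀ x : Fin n, v x.succ.succ = if h : P x then z (some ⟨x, h⟩) else 0 := fun x => rfl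
  have h0 : v 0 = s * z none - ∑ x : Fin n, A 1 x.succ.succ * v x.succ.succ := rfl
  rw [h0, sub_add_cancel, h1]
  have h2 : s * (2 * z none * (s * z none) + ∑ x : Fin n, δ x * v x.succ.succ ^ 2) =
      2 * z none ^ 2 + ∑ x : Fin n, v x.succ.succ ^ 2 := by
    rw [mul_add, Finset.mul_sum]
    have e1 : s * (2 * z none * (s * z none)) = 2 * z none ^ 2 := by
      calc s * (2 * z none * (s * z none)) = (s * s) * (2 * z none ^ 2) := by ring
        _ = _ := by rw [hs, one_mul]
    rw [e1]
    congr 1
    refine Finset.sum_congr rfl fun x _ => ?_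
    by_cases h : P x
    · rw [hP x h]
      calc s * (s * v x.succ.succ ^ 2) = (s * s) * v x.succ.succ ^ 2 := by ring
        _ = _ := by rw [hs, one_mul]
    · rw [hx x, dif_neg h]
      ring
  rw [h2]
  obtain ⟨k, hk⟩ := Function.ne_iff.1 hz
  have hk' : z k ≠ 0 := hk
  have hnn : 0 ≤ ∑ x : Fin n, v x.succ.succ ^ 2 := Finset.sum_nonneg fun x _ => sq_nonneg _
  rcases k with _ | ⟨x, h⟩
  · have : 0 < z none ^ 2 := by positivity
    linarith
  · have h3 : v x.succ.succ = z (some ⟨x, h⟩) := by rw [hx x, dif_pos h]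
    have h4 : 0 < ∑ x : Fin n, v x.succ.succ ^ 2 := by
      refine Finset.sum_pos' (fun x _ => sq_nonneg _) ⟨x, Finset.mem_univ _, ?_⟩
      rw [h3]
      positivity
    have : 0 ≤ z none ^ 2 := sq_nonneg _
    linarith

theorem inertia_eq {n m : ℕ} (hm : 1 ≤ m) (hmn : m ≤ n + 1) :
    HasInertia (part (fun x : Fin n => if (x : ℕ) + 1 < m then (1 : ℝ) else -1)) m
      (n + 2 - m) := by
  intro A hA
  set δ : Fin n → ℝ := fun x : Fin n => if (x : ℕ) + 1 < m then (1 : ℝ) else -1 with hδ
  have hH : A.IsHermitian := by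
    rw [Matrix.IsHermitian, Matrix.conjTranspose_eq_transpose_of_trivial]
    exact hA.1
  have h1 : Fintype.card (Option {x : Fin n // (x : ℕ) + 1 < m}) ≤ posEig A := by
    apply card_le_posEig hH (ext (fun x => A 1 x.succ.succ) 1 (fun x : Fin n => (x : ℕ) + 1 < m))
    intro z hz
    have := definite δ A hA 1 (by norm_num) (fun x : Fin n => (x : ℕ) + 1 < m)
      (fun x hx => by simp only [hδ]; rw [if_pos hx]) z hz
    simpa using this
  have h2 : Fintype.card (Option {x : Fin n // ¬ (x : ℕ) + 1 < m}) ≤ negEig A := by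
    apply card_le_negEig hH
      (ext (fun x => A 1 x.succ.succ) (-1) (fun x : Fin n => ¬ (x : ℕ) + 1 < m))
    intro z hz
    have := definite δ A hA (-1) (by norm_num) (fun x : Fin n => ¬ (x : ℕ) + 1 < m)
      (fun x hx => by simp only [hδ]; rw [if_neg hx]) z hz
    simpa using this
  have h3 := posEig_add_negEig_le hH
  have h4 : Fintype.card {x : Fin n // (x : ℕ) + 1 < m} = m - 1 := by
    rw [Fintype.card_subtype]
    have : (Finset.univ.filter fun x : Fin n => (x : ℕ) + 1 < m) =
        (Finset.univ : Finset (Fin (m - 1))).map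
          (Fin.castLEEmb (show m - 1 ≤ n by omega)) := by
      ext x
      simp only [Finset.mem_filter, Finset.mem_univ, true_and, Finset.mem_map, Fin.castLEEmb_apply]
      constructor
      · intro h
        exact ⟨⟨x, by omega⟩, by ext; simp⟩
      · rintro ⟨y, hy⟩
        have := y.2
        rw [← hy]
        simp only [Fin.val_castLE]
        omega
    rw [this]
    simp
  have h5 : Fintype.card {x : Fin n // ¬ (x : ℕ) + 1 < m} = n - (m - 1) := by
    rw [Fintype.card_subtype_compl, h4, Fintype.card_fin]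
  rw [Fintype.card_option, h4] at h1
  rw [Fintype.card_option, h5] at h2
  rw [Fintype.card_fin] at h3
  have h6 : posEig A = m ∧ negEig A = n + 2 - m := by omega
  exact h6

/-- proper bicolorings of `G^c` have `1`, `2`, `n` or `n + 1` red vertices -/
theorem bicoloring_count {n : ℕ} (c : Fin (n + 2) → Bool) (hc : ProperBicoloring (E n) c) :
    (Finset.univ.filter fun i => c i = true).card ≤ 2 ∨
      n ≤ (Finset.univ.filter fun i => c i = true).card := by
  have h : ∀ x : Fin n, c 1 ≠ c x.succ.succ := fun x =>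
    hc 1 x.succ.succ ((mem_E _ _).2 ⟨x, Or.inl ⟨rfl, rfl⟩⟩)
  by_cases h1 : c 1 = true
  · left
    have hsub : (Finset.univ.filter fun i => c i = true) ⊆ {0, 1} := by
      intro i hi
      rw [Finset.mem_filter] at hi
      revert hi
      refine Fin.cases (fun _ => by simp) (fun i' => ?_) i
      refine Fin.cases (fun _ => by simp) (fun x hx => ?_) i'
      exact absurd (h1.trans hx.2.symm) (h x)
    exact (Finset.card_le_card hsub).trans Finset.card_le_two
  · right
    have h2 : ∀ x : Fin n, c x.succ.succ = true := by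
      intro x
      have := h x
      revert this h1
      cases c 1 <;> cases c x.succ.succ <;> simp
    have hsub : (Finset.univ : Finset (Fin n)).map
        ((Fin.succEmb n).trans (Fin.succEmb (n + 1))) ⊆
          (Finset.univ.filter fun i => c i = true) := by
      intro i hi
      rw [Finset.mem_map] at hi
      obtain ⟨x, -, rfl⟩ := hi
      simp only [Finset.mem_filter, Finset.mem_univ, true_and]
      exact h2 x
    have := Finset.card_le_card hsub
    simpa using this

/-- **Q1 is false**, for every order `N ≥ 6` and every inertia `(m, N - m, 0)` with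
`3 ≤ m ≤ N - 3`: some full-rank typical graph on `N` vertices has a partial matrix that is minimally
completable to rank `N`, all of whose completions have inertia `(m, N - m, 0)`, while no proper
bicoloring of the complement has exactly `m` red and `N - m` blue vertices. -/
theorem result (N m : ℕ) (hm : 3 ≤ m) (hmN : m + 3 ≤ N) :
    ∃ E : Set (Sym2 (Fin N)), FullRankTypical E ∧
      (∃ M : E → ℝ, MinCompletable M N ∧ HasInertia M m (N - m)) ∧
      ¬ ∃ c : Fin N → Bool, ProperBicoloring E c ∧
        (Finset.univ.filter fun i => c i = true).card = m ∧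
        (Finset.univ.filter fun i => c i = false).card = N - m := by
  obtain ⟨n, rfl⟩ : ∃ n, N = n + 2 := ⟨N - 2, by omega⟩
  refine ⟨E n, fullRankTypical_E n,
    ⟨part (fun x : Fin n => if (x : ℕ) + 1 < m then (1 : ℝ) else -1), ?_, ?_⟩, ?_⟩
  · apply minCompletable_of
    intro A hA
    refine rank_eq _ (fun x => ?_) A hA
    show (if (x : ℕ) + 1 < m then (1 : ℝ) else -1) ≠ 0
    split_ifs <;> norm_num
  · exact inertia_eq (by omega) (by omega)
  · rintro ⟨c, hc, h1, -⟩
    rcases bicoloring_count c hc with h | h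
    · omega
    · omega

end Pool.Agent.Results.MP_97e4cf_co.InertiaNotBicoloring
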